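import Pool.Agent.TH783.HB.Alg

/-!
# Height bounders: all finite cases are equivalent

For every finite `κ ≥ 2` the existence of a `κ`-height bounder is equivalent to the existence of a
`2`-height bounder (for equations with at most one solution), and to the existence of one algorithm
which gets an equation `D` together with an arbitrary upper bound `m` for the number of its
solutions and returns a bound for their heights.

The idea: from `D` and `k` one computes an equation `D_k` whose solutions are the sets of `k`
solutions of `D`, written in increasing order (with unique auxiliary values). If `D` has at most `k`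
solutions, then `D_k` has at most one solution, and a height bound for `D_k` decides whether `D`
has exactly `k` solutions. One tries `k = m, m - 1, ..., 1`, in this order; in the opposite order
the bounder could run forever.
-/

set_option autoImplicit false

namespace Pool.Agent.Results.MP_4a2a1b_lc.FiniteCasesEquivalent

/-- The value at the tuple `x` of the polynomial with the given list of terms (coefficient, list of
indices of variables). -/
def value (x : List ℕ) (p : List (ℤ × List ℕ)) : ℤ :=
  (p.map fun t => t.1 * (t.2.map fun i => ((x.getD i 0 : ℕ) : ℤ)).prod).sum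

/-- The solutions in `ℕ ^ n` (lists of length `n`) of the Diophantine equation `D = (n, p)`, that
is, `p = 0` with `n` unknowns. -/
def Sol (D : ℕ × List (ℤ × List ℕ)) : Set (List ℕ) := {x | x.length = D.1 ∧ value x D.2 = 0}

/-- The partial recursive function `B` is a `κ`-height bounder: on every equation with fewer than
`κ` solutions it halts with a number which is larger than the heights of all solutions. -/
def IsHeightBounder (κ : ℕ∞) (B : ℕ × List (ℤ × List ℕ) →. ℕ) : Prop :=
  Partrec B ∧ ∀ D, (Sol D).encard < κ → ∃ b ∈ B D, ∀ x ∈ Sol D, ∀ i ∈ x, i < b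

/-- The partial recursive function `B` gets a number `m` and an equation `D`; if `D` has at most
`m` solutions, then `B` halts with a number which is larger than the heights of all solutions. -/
def IsUniformBounder (B : ℕ × (ℕ × List (ℤ × List ℕ)) →. ℕ) : Prop :=
  Partrec B ∧ ∀ (m : ℕ) (D : ℕ × List (ℤ × List ℕ)), (Sol D).encard ≤ m →
    ∃ b ∈ B (m, D), ∀ x ∈ Sol D, ∀ i ∈ x, i < b

lemma sol_eq (D : ℕ × List (ℤ × List ℕ)) : Sol D = Pool.Agent.TH783.HB.Sol D := by
  have h : ∀ x : List ℕ, value x D.2 =
      Pool.Agent.TH783.QH.ev (Pool.Agent.TH783.HB.val x) D.2 := by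
    intro x
    unfold value Pool.Agent.TH783.QH.ev
    congr 1
  ext x
  show (x.length = D.1 ∧ value x D.2 = 0) ↔ (x.length = D.1 ∧ _ = 0)
  rw [h x]

lemma bounder_iff (κ : ℕ∞) (B : ℕ × List (ℤ × List ℕ) →. ℕ) :
    IsHeightBounder κ B ↔ Pool.Agent.TH783.HB.IsBounder κ B := by
  unfold IsHeightBounder Pool.Agent.TH783.HB.IsBounder Pool.Agent.TH783.HB.Bounds
  simp only [sol_eq]

lemma uniform_iff (B : ℕ × (ℕ × List (ℤ × List ℕ)) →. ℕ) :
    IsUniformBounder B ↔ Pool.Agent.TH783.HB.IsUniform B := by
  unfold IsUniformBounder Pool.Agent.TH783.HB.IsUniform Pool.Agent.TH783.HB.Bounds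
  simp only [sol_eq]

theorem result :
    -- equations with at most one solution; some finite `κ ≥ 2`; all finite `κ`;
    -- one algorithm for all finite bounds on the number of solutions
    [∃ B, IsHeightBounder 2 B,
      ∃ κ : ℕ, 2 ≤ κ ∧ ∃ B, IsHeightBounder κ B,
      ∀ κ : ℕ, ∃ B, IsHeightBounder κ B,
      ∃ B, IsUniformBounder B].TFAE := by
  simp only [bounder_iff, uniform_iff]
  tfae_have 1 → 4 := fun ⟨B, hB⟩ => ⟨_, Pool.Agent.TH783.HB.uniform_of_two hB⟩
  tfae_have 4 → 3 := fun ⟨B, hB⟩ κ => Pool.Agent.TH783.HB.bounder_of_uniform hB κ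
  tfae_have 3 → 2 := fun h => ⟨2, le_rfl, h 2⟩
  tfae_have 2 → 1 := fun ⟨κ, hκ, B, hB⟩ => ⟨B, hB.mono (by exact_mod_cast hκ)⟩
  tfae_finish

end Pool.Agent.Results.MP_4a2a1b_lc.FiniteCasesEquivalent
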